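import Pool.Agent.W2helper44.OT.Stm

/-!
# Project OT, piece PERM: permutation modules
-/

set_option autoImplicit false

namespace Pool.Agent.W2helper19.OT

open Pool.Agent.W2helper44.OT

section

variable {E : Type}

theorem sh_pow (ρ : Equiv.Perm E) (j : ℕ) (w : E → ℤ) (σ : E) :
    ((sh ρ ^ j : Module.End ℤ (E → ℤ)) w) σ = w ((ρ ^ j)⁻¹ σ) := by
  induction j generalizing w with
  | zero => simp
  | succ j ih =>
    rw [pow_succ, Module.End.mul_apply, ih]
    simp only [sh, LinearMap.funLeft_apply]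
    congr 1
    rw [pow_succ, mul_inv_rev, Equiv.Perm.mul_apply]
    rfl

theorem op_even (ρ : Equiv.Perm E) (m s : ℕ) (hs : Even s) (w : E → ℤ) (σ : E) :
    op (sh ρ) m s w σ = w (ρ⁻¹ σ) - w σ := by
  unfold op
  rw [if_pos hs]
  rfl

theorem op_odd (ρ : Equiv.Perm E) (m s : ℕ) (hs : ¬ Even s) (w : E → ℤ) (σ : E) :
    op (sh ρ) m s w σ = ∑ j ∈ Finset.range m, w ((ρ ^ j)⁻¹ σ) := by
  unfold op
  rw [if_neg hs, LinearMap.sum_apply, Finset.sum_apply]
  exact Finset.sum_congr rfl fun j _ => sh_pow ρ j w σ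

/-- a representative of the orbit -/
noncomputable def rep (ρ : Equiv.Perm E) (σ : E) : E :=
  (Quotient.mk (Equiv.Perm.SameCycle.setoid ρ) σ).out

theorem rep_same (ρ : Equiv.Perm E) (σ : E) : ρ.SameCycle (rep ρ σ) σ :=
  Quotient.mk_out (s := Equiv.Perm.SameCycle.setoid ρ) σ

theorem rep_eq (ρ : Equiv.Perm E) {σ τ : E} (h : ρ.SameCycle σ τ) : rep ρ σ = rep ρ τ := by
  unfold rep
  rw [Quotient.sound (s := Equiv.Perm.SameCycle.setoid ρ) h]

theorem pow_eq_pow_iff (ρ : Equiv.Perm E) (σ : E) (i j : ℕ) :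
    (ρ ^ i) σ = (ρ ^ j) σ ↔ i ≡ j [MOD Function.minimalPeriod ρ σ] := by
  constructor
  · intro h
    wlog hij : i ≤ j generalizing i j
    · exact (this j i h.symm (by omega)).symm
    · obtain ⟨k, rfl⟩ := Nat.exists_eq_add_of_le hij
      have h1 : (ρ ^ k) σ = σ := by
        rw [pow_add, Equiv.Perm.mul_apply] at h
        exact ((ρ ^ i).injective h).symm
      have h2 : Function.IsPeriodicPt ρ k σ := by
        unfold Function.IsPeriodicPt Function.IsFixedPt
        rw [Equiv.Perm.iterate_eq_pow]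
        exact h1
      have h3 := h2.minimalPeriod_dvd
      exact (Nat.modEq_iff_dvd' (by omega)).mpr (by simpa using h3)
  · intro h
    have key : ∀ a, (ρ ^ a) σ = (ρ ^ (a % Function.minimalPeriod ρ σ)) σ := by
      intro a
      rw [← Equiv.Perm.iterate_eq_pow, ← Equiv.Perm.iterate_eq_pow, Function.iterate_mod_minimalPeriod_eq]
    rw [key i, key j, h]

theorem sum_periodic (f : ℕ → ℤ) (o : ℕ) (hf : ∀ j, f (j + o) = f j) (b : ℕ) :
    ∑ j ∈ Finset.range (b * o), f j = b * ∑ j ∈ Finset.range o, f j := by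
  have h1 : ∀ b j, f (b * o + j) = f j := by
    intro b
    induction b with
    | zero => intro j; simp
    | succ b ih =>
      intro j
      rw [show (b + 1) * o + j = (b * o + j) + o by ring, hf, ih]
  induction b with
  | zero => simp
  | succ b ih =>
    rw [show (b + 1) * o = b * o + o by ring, Finset.sum_range_add, ih,
      Finset.sum_congr rfl (fun j _ => h1 b j)]
    push_cast
    ring

theorem arith {p n' o : ℕ} (hp : p.Prime) (hn : 0 < n') (h1 : o ∣ p * n') (h2 : ¬ o ∣ n') :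
    (p * n' / o) ∣ (p * n') / p ^ (p * n').factorization p := by
  obtain ⟨b, hb⟩ := h1
  have hpos : 0 < p * n' := Nat.mul_pos hp.pos hn
  have ho : 0 < o := by
    rcases Nat.eq_zero_or_pos o with h | h
    · subst h; omega
    · exact h
  have hdiv : p * n' / o = b := by
    rw [hb]; exact Nat.mul_div_cancel_left b ho
  rw [hdiv]
  have hpb : ¬ p ∣ b := by
    rintro ⟨b', rfl⟩
    apply h2
    refine ⟨b', ?_⟩
    have : p * n' = p * (o * b') := by rw [hb]; ring
    exact Nat.eq_of_mul_eq_mul_left hp.pos this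
  have hcop : Nat.Coprime b (p ^ (p * n').factorization p) :=
    Nat.Coprime.pow_right _ ((Nat.Prime.coprime_iff_not_dvd hp).mpr hpb).symm
  have h3 : p ^ (p * n').factorization p * ((p * n') / p ^ (p * n').factorization p) = p * n' :=
    Nat.ordProj_mul_ordCompl_eq_self _ _
  apply hcop.dvd_of_dvd_mul_left
  rw [h3, hb]
  exact Dvd.intro_left o rfl

end

theorem p_PERM : P_PERM := by
  classical
  intro E _ ρ p n' hp hn s x hx hop
  set n := p * n' with hndef
  have hnpos : 0 < n := Nat.mul_pos hp.pos hn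
  set c : ℕ := n / p ^ n.factorization p with hc
  -- the set of the points outside
  let P : E → Prop := fun σ => (ρ ^ n) σ = σ ∧ (ρ ^ n') σ ≠ σ
  have hfix : ∀ (m : ℕ) (σ τ : E), ρ.SameCycle σ τ → ((ρ ^ m) σ = σ ↔ (ρ ^ m) τ = τ) := by
    intro m σ τ h
    obtain ⟨i, hi⟩ := h
    have hcomm : (ρ ^ m) ((ρ ^ i) σ) = (ρ ^ i) ((ρ ^ m) σ) := by
      rw [← Equiv.Perm.mul_apply, ← Equiv.Perm.mul_apply]
      congr 1
      exact ((Commute.refl ρ).pow_left m).zpow_right i
    rw [← hi, hcomm]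
    exact (Equiv.apply_eq_iff_eq (ρ ^ i)).symm
  have hPst : ∀ σ τ : E, ρ.SameCycle σ τ → (P σ ↔ P τ) := by
    intro σ τ h
    exact and_congr (hfix n σ τ h) (not_congr (hfix n' σ τ h))
  have hsame : ∀ (j : ℕ) (σ : E), ρ.SameCycle ((ρ ^ j)⁻¹ σ) σ := by
    intro j σ
    exact ⟨j, by simp⟩
  have hsame1 : ∀ (σ : E), ρ.SameCycle (ρ⁻¹ σ) σ := by
    intro σ
    exact ⟨1, by simp⟩
  have hnat : ∀ σ τ : E, ρ.SameCycle σ τ → ∃ i : ℕ, (ρ ^ i) σ = τ := by
    intro σ τ h
    obtain ⟨i, _, hi⟩ := h.exists_pow_eq'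
    exact ⟨i, hi⟩
  have hob : ∀ σ, P σ → Function.minimalPeriod ρ σ ∣ n ∧ ¬ Function.minimalPeriod ρ σ ∣ n' := by
    intro σ hσ
    have h0 : ∀ m : ℕ, (ρ ^ m) σ = σ ↔ Function.minimalPeriod ρ σ ∣ m := by
      intro m
      rw [show (ρ ^ m) σ = σ ↔ (ρ ^ m) σ = (ρ ^ 0) σ by simp, pow_eq_pow_iff, Nat.modEq_zero_iff_dvd]
    exact ⟨(h0 n).mp hσ.1, fun h => hσ.2 ((h0 n').mpr h)⟩
  -- the main claim
  have main : ∃ w : E → ℤ, (∀ σ, ¬ P σ → w σ = 0) ∧
      ∀ σ, P σ → op (sh ρ) n (s + 1) w σ = (c : ℤ) * x σ := by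
    by_cases hs : Even s
    · have hs' : ¬ Even (s + 1) := by
        rw [Nat.even_add_one]; exact fun h => h hs
      have hx1 : ∀ σ, P σ → x (ρ⁻¹ σ) = x σ := by
        intro σ hσ
        have := hop σ hσ.2
        rw [op_even ρ n s hs] at this
        linarith
      have hx2 : ∀ (i : ℕ) σ, P σ → x ((ρ ^ i) σ) = x σ := by
        intro i
        induction i with
        | zero => intro σ _; simp
        | succ i ih =>
          intro σ hσ
          have h1 : P ((ρ ^ (i + 1)) σ) := (hPst _ _ ⟨((i + 1 : ℕ) : ℤ), by rw [zpow_natCast]⟩).mp hσ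
          have h2 := hx1 _ h1
          rw [← h2, ← ih σ hσ]
          congr 1
          rw [pow_succ', Equiv.Perm.mul_apply]
          simp
      refine ⟨fun τ => if P τ ∧ rep ρ τ = τ then
        ((c / (n / Function.minimalPeriod ρ τ) : ℕ) : ℤ) * x τ else 0, ?_, ?_⟩
      · intro σ hσ
        simp only
        rw [if_neg (fun h => hσ h.1)]
      · intro σ hσ
        rw [op_odd ρ n (s + 1) hs']
        obtain ⟨i, hi⟩ := hnat _ _ (rep_same ρ σ)
        have hP0 : P (rep ρ σ) := (hPst _ _ (rep_same ρ σ)).mpr hσ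
        have hob0 := hob _ hP0
        set o := Function.minimalPeriod ρ (rep ρ σ) with ho
        have hopos : 0 < o := Nat.pos_of_dvd_of_pos hob0.1 hnpos
        have hterm : ∀ j ∈ Finset.range n,
            (if P ((ρ ^ j)⁻¹ σ) ∧ rep ρ ((ρ ^ j)⁻¹ σ) = (ρ ^ j)⁻¹ σ then
              ((c / (n / Function.minimalPeriod ρ ((ρ ^ j)⁻¹ σ)) : ℕ) : ℤ) * x ((ρ ^ j)⁻¹ σ) else 0)
            = if j ≡ i [MOD o] then ((c / (n / o) : ℕ) : ℤ) * x (rep ρ σ) else 0 := by
          intro j _
          have h1 : P ((ρ ^ j)⁻¹ σ) := (hPst _ _ (hsame j σ)).mpr hσ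
          have h2 : rep ρ ((ρ ^ j)⁻¹ σ) = rep ρ σ := rep_eq ρ (hsame j σ)
          have h3 : (rep ρ σ = (ρ ^ j)⁻¹ σ) ↔ j ≡ i [MOD o] := by
            rw [ho, ← pow_eq_pow_iff, hi]
            constructor
            · intro h; rw [h]; simp
            · intro h; rw [Equiv.Perm.eq_inv_iff_eq]; exact h
          rw [h2]
          by_cases h4 : rep ρ σ = (ρ ^ j)⁻¹ σ
          · rw [if_pos ⟨h1, h4⟩, if_pos (h3.mp h4), ← h4]
          · rw [if_neg (fun h => h4 h.2), if_neg (fun h => h4 (h3.mpr h))]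
        rw [Finset.sum_congr rfl hterm, ← Finset.sum_filter, Finset.sum_const,
          ← Nat.count_eq_card_filter_range, Nat.count_modEq_card _ hopos,
          Nat.mod_eq_zero_of_dvd hob0.1, if_neg (by omega), add_zero]
        obtain ⟨e, he⟩ : (n / o) ∣ c := arith hp hn hob0.1 hob0.2
        have hbpos : 0 < n / o := Nat.div_pos (Nat.le_of_dvd hnpos hob0.1) hopos
        rw [he, Nat.mul_div_cancel_left e hbpos, nsmul_eq_mul]
        have h5 : x (rep ρ σ) = x σ := by
          rw [← hx2 i _ hP0, hi]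
        rw [h5]
        push_cast
        ring
    · have hs' : Even (s + 1) := by
        rw [Nat.even_add_one]; exact hs
      have hx1 : ∀ σ, P σ → ∑ j ∈ Finset.range n, x ((ρ ^ (j + 1)) σ) = 0 := by
        intro σ hσ
        have h1 := hop σ hσ.2
        rw [op_odd ρ n s hs, ← Finset.sum_range_reflect] at h1
        rw [← h1]
        apply Finset.sum_congr rfl
        intro j hj
        rw [Finset.mem_range] at hj
        congr 1
        rw [Equiv.Perm.eq_inv_iff_eq, ← Equiv.Perm.mul_apply, ← pow_add,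
          show n - 1 - j + (j + 1) = n by omega]
        exact hσ.1
      -- well-definedness
      have hG : ∀ σ, P σ → ∀ i i' : ℕ, (ρ ^ i) σ = (ρ ^ i') σ →
          ∑ j ∈ Finset.range i, x ((ρ ^ (j + 1)) σ) = ∑ j ∈ Finset.range i', x ((ρ ^ (j + 1)) σ) := by
        intro σ hσ i i' hii
        wlog hle : i ≤ i' generalizing i i'
        · exact (this i' i hii.symm (by omega)).symm
        obtain ⟨k, rfl⟩ := Nat.exists_eq_add_of_le hle
        have hob0 := hob _ hσ
        have hk : Function.minimalPeriod ρ σ ∣ k := by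
          rw [pow_eq_pow_iff] at hii
          have := (Nat.modEq_iff_dvd' (by omega)).mp hii
          simpa using this
        set o := Function.minimalPeriod ρ σ with ho
        obtain ⟨k', rfl⟩ := hk
        obtain ⟨b, hb⟩ := hob0.1
        have hper : ∀ j, x ((ρ ^ (i + (j + o) + 1)) σ) = x ((ρ ^ (i + j + 1)) σ) := by
          intro j
          congr 1
          rw [pow_eq_pow_iff, ← ho]
          show (i + (j + o) + 1) % o = (i + j + 1) % o
          rw [show i + (j + o) + 1 = (i + j + 1) + o by ring, Nat.add_mod_right]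
        have hsum : ∑ j ∈ Finset.range o, x ((ρ ^ (i + j + 1)) σ) = 0 := by
          have h1 := sum_periodic (fun j => x ((ρ ^ (i + j + 1)) σ)) o hper b
          have h2 : ∑ j ∈ Finset.range (b * o), x ((ρ ^ (i + j + 1)) σ) = 0 := by
            rw [show b * o = n by rw [hb]; ring]
            have h3 := hx1 ((ρ ^ i) σ) ((hPst _ _ ⟨(i : ℕ), by simp⟩).mp hσ)
            rw [← h3]
            apply Finset.sum_congr rfl
            intro j _
            rw [← Equiv.Perm.mul_apply, ← pow_add]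
            congr 3
            ring
          rw [h2] at h1
          have hbne : (b : ℤ) ≠ 0 := by
            intro h0
            have : b = 0 := by exact_mod_cast h0
            rw [this] at hb
            omega
          rcases mul_eq_zero.mp h1.symm with h | h
          · exact absurd h hbne
          · exact h
        rw [Finset.sum_range_add]
        have h4 := sum_periodic (fun j => x ((ρ ^ (i + j + 1)) σ)) o hper k'
        rw [hsum, mul_zero, mul_comm k' o] at h4
        rw [h4, add_zero]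
      choose! idx hidx using fun τ => hnat _ _ (rep_same ρ τ)
      refine ⟨fun τ => if P τ then
        (c : ℤ) * (- ∑ j ∈ Finset.range (idx τ), x ((ρ ^ (j + 1)) (rep ρ τ))) else 0, ?_, ?_⟩
      · intro σ hσ
        exact if_neg hσ
      · intro σ hσ
        rw [op_even ρ n (s + 1) hs']
        have h1 : P (ρ⁻¹ σ) := (hPst _ _ (hsame1 σ)).mpr hσ
        have h2 : rep ρ (ρ⁻¹ σ) = rep ρ σ := rep_eq ρ (hsame1 σ)
        have hP0 : P (rep ρ σ) := (hPst _ _ (rep_same ρ σ)).mpr hσ
        rw [if_pos h1, if_pos hσ, h2]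
        have h3 : (ρ ^ (idx (ρ⁻¹ σ))) (rep ρ σ) = ρ⁻¹ σ := by
          have := hidx (ρ⁻¹ σ)
          rwa [h2] at this
        have h4 : (ρ ^ (idx (ρ⁻¹ σ) + 1)) (rep ρ σ) = σ := by
          rw [pow_succ', Equiv.Perm.mul_apply, h3]
          simp
        rw [hG _ hP0 (idx σ) (idx (ρ⁻¹ σ) + 1) (by rw [hidx, h4]), Finset.sum_range_succ, h4]
        ring
  obtain ⟨w, hw1, hw2⟩ := main
  refine ⟨w, fun σ => if (ρ ^ n') σ = σ then (c : ℤ) * x σ else 0, ?_, ?_, ?_⟩
  · intro σ hσ
    exact hw1 σ (fun h => hσ h.1)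
  · intro σ hσ
    simp only
    rw [if_neg hσ]
  · funext σ
    rw [Pi.add_apply, Pi.smul_apply, smul_eq_mul]
    by_cases hP : P σ
    · rw [hw2 σ hP, if_neg hP.2, zero_add]
    · have hz : op (sh ρ) n (s + 1) w σ = 0 := by
        by_cases hs : Even (s + 1)
        · rw [op_even ρ n (s + 1) hs, hw1 σ hP, hw1 (ρ⁻¹ σ) (fun h => hP ((hPst _ _ (hsame1 σ)).mp h))]
          simp
        · rw [op_odd ρ n (s + 1) hs]
          apply Finset.sum_eq_zero
          intro j _
          exact hw1 _ (fun h => hP ((hPst _ _ (hsame j σ)).mp h))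
      rw [hz, add_zero]
      by_cases h1 : (ρ ^ n') σ = σ
      · rw [if_pos h1]
      · rw [if_neg h1]
        have h2 : (ρ ^ n) σ ≠ σ := fun h => hP ⟨h, h1⟩
        rw [hx σ h2, mul_zero]

end Pool.Agent.W2helper19.OT
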